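import Pool.Agent.H15.FOS.Targets

/-!
# MP_70ba79_ag, THEOREM S, chapter 12: row HRP (polynomials with homogeneous coefficients)
-/

set_option autoImplicit false
open MvPolynomial SC Pool.Agent.H27.LV
open Pool.Agent.H84.SM (dp cr dt)
open Pool.Agent.H92.SF Pool.Agent.H3.SF Pool.Agent.H15.FOS
namespace Pool.Agent.H85.FOS

section

variable {k F : Type} [Field k] [Field F] [Algebra k F]

/-- a derivation applied to the coefficients -/
noncomputable def cfun (E : Derivation k F F) (p : Polynomial F) : Polynomial F :=
  ∑ j ∈ p.support, Polynomial.monomial j (E (p.coeff j))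

theorem coeff_cfun (E : Derivation k F F) (p : Polynomial F) (j : ℕ) :
    (cfun E p).coeff j = E (p.coeff j) := by
  unfold cfun
  rw [Polynomial.finset_sum_coeff]
  simp only [Polynomial.coeff_monomial]
  rw [Finset.sum_ite_eq' p.support j]
  split_ifs with h
  · rfl
  · rw [Polynomial.notMem_support_iff.mp h, map_zero]

/-- the additive map -/
noncomputable def cadd (E : Derivation k F F) : Polynomial F →+ Polynomial F where
  toFun := cfun E
  map_zero' := by
    ext j
    rw [coeff_cfun, Polynomial.coeff_zero, map_zero]
  map_add' p q := by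
    ext j
    rw [coeff_cfun, Polynomial.coeff_add, Polynomial.coeff_add, map_add, coeff_cfun, coeff_cfun]

theorem coeff_cadd (E : Derivation k F F) (p : Polynomial F) (j : ℕ) :
    (cadd E p).coeff j = E (p.coeff j) := coeff_cfun E p j

/-- all coefficients are homogeneous of degree `w` -/
def WW (E : Derivation k F F) (w : ℕ) (p : Polynomial F) : Prop :=
  ∀ j, E (p.coeff j) = (w : F) * p.coeff j

theorem WW_mul (E : Derivation k F F) {w w' : ℕ} {p p' : Polynomial F} (h : WW E w p)
    (h' : WW E w' p') : WW E (w + w') (p * p') := by
  intro j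
  rw [Polynomial.coeff_mul, map_sum, Finset.mul_sum]
  refine Finset.sum_congr rfl fun x _ => ?_
  rw [Derivation.leibniz, h, h', smul_eq_mul, smul_eq_mul]
  push_cast
  ring

theorem WW_one (E : Derivation k F F) : WW E 0 (1 : Polynomial F) := by
  intro j
  rw [Polynomial.coeff_one]
  split_ifs
  · rw [Derivation.map_one_eq_zero]; simp
  · simp

theorem WW_pow (E : Derivation k F F) {w : ℕ} {p : Polynomial F} (h : WW E w p) (n : ℕ) :
    WW E (n * w) (p ^ n) := by
  induction n with
  | zero => rw [pow_zero, zero_mul]; exact WW_one E
  | succ n ih =>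
    rw [pow_succ, add_mul, one_mul]
    exact WW_mul E ih h

theorem WW_const (E : Derivation k F F) (c : Polynomial k) :
    WW E 0 (Polynomial.mapRingHom (algebraMap k F) c) := by
  intro j
  rw [Polynomial.coe_mapRingHom, Polynomial.coeff_map, Derivation.map_algebraMap]
  simp

theorem WW_lin (E : Derivation k F F) {x : F} (hx : E x = x) : WW E 1 (Polynomial.C x) := by
  intro j
  rw [Polynomial.coeff_C]
  split_ifs
  · rw [hx]; simp
  · simp

end

theorem fos_HRP (hHRL : T_HRL) : T_HRP := by
  intro k F _ _ _ _ u E P e hu hP hI hH
  haveI : CharZero F := charZero_of_injective_algebraMap (algebraMap k F).injective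
  haveI : CharZero (Polynomial F) :=
    charZero_of_injective_algebraMap (Polynomial.C_injective (R := F))
  refine hHRL (Polynomial k) (Polynomial F) (Polynomial.mapRingHom (algebraMap k F))
    (fun i => Polynomial.C (u i)) (cadd E) P e hP ?_ ?_
  · intro c a i
    have hPe : WW E e P := by
      intro j
      have h := hH j
      unfold Hm at h
      rw [h, Int.cast_natCast]
    have h1 : WW E a.degree (eval₂Hom (Polynomial.mapRingHom (algebraMap k F))
        (fun i => Polynomial.C (u i)) (monomial a c)) := by
      rw [eval₂Hom_monomial, Finsupp.prod_fintype _ _ (by intro i; simp), Fin.prod_univ_three]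
      have hd : a.degree = 0 + (a 0 * 1 + a 1 * 1 + a 2 * 1) := by
        rw [Finsupp.degree_eq_sum, Fin.sum_univ_three]; ring
      rw [hd]
      exact WW_mul E (WW_const E c) (WW_mul E (WW_mul E (WW_pow E (WW_lin E (hu 0)) _)
        (WW_pow E (WW_lin E (hu 1)) _)) (WW_pow E (WW_lin E (hu 2)) _))
    have h2 := WW_mul E h1 (WW_pow E hPe i)
    ext j
    rw [coeff_cadd, h2 j, Polynomial.coeff_natCast_mul]
  · have hC : ∀ b : F, Itg k u b → (eval₂Hom (Polynomial.mapRingHom (algebraMap k F))
        (fun i => Polynomial.C (u i))).IsIntegralElem (Polynomial.C b) := by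
      intro b hb
      obtain ⟨p, hp, hpb⟩ := hb
      refine ⟨p.map (MvPolynomial.map (Polynomial.C : k →+* Polynomial k)), hp.map _, ?_⟩
      have hcomp : (eval₂Hom (Polynomial.mapRingHom (algebraMap k F))
          (fun i => Polynomial.C (u i))).comp (MvPolynomial.map (Polynomial.C : k →+* Polynomial k))
          = (Polynomial.C : F →+* Polynomial F).comp
            ((aeval u : MvPolynomial (Fin 3) k →ₐ[k] F) : MvPolynomial (Fin 3) k →+* F) := by
        refine MvPolynomial.ringHom_ext ?_ ?_
        · intro r
          simp
        · intro i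
          simp
      rw [Polynomial.eval₂_map, hcomp, ← Polynomial.hom_eval₂, hpb, map_zero]
    have hX : (eval₂Hom (Polynomial.mapRingHom (algebraMap k F))
        (fun i => Polynomial.C (u i))).IsIntegralElem (Polynomial.X) := by
      have h := (eval₂Hom (Polynomial.mapRingHom (algebraMap k F))
        (fun i => Polynomial.C (u i))).isIntegralElem_map (x := C Polynomial.X)
      rw [eval₂Hom_C, Polynomial.coe_mapRingHom, Polynomial.map_X] at h
      exact h
    have hpow : ∀ n : ℕ, (eval₂Hom (Polynomial.mapRingHom (algebraMap k F))
        (fun i => Polynomial.C (u i))).IsIntegralElem (Polynomial.X ^ n) := by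
      intro n
      induction n with
      | zero =>
        rw [pow_zero]
        have h := (eval₂Hom (Polynomial.mapRingHom (algebraMap k F))
          (fun i => Polynomial.C (u i))).isIntegralElem_map (x := 1)
        rw [map_one] at h
        exact h
      | succ n ih =>
        rw [pow_succ]
        exact RingHom.IsIntegralElem.mul _ ih hX
    have hsum : ∀ s : Finset ℕ, (eval₂Hom (Polynomial.mapRingHom (algebraMap k F))
        (fun i => Polynomial.C (u i))).IsIntegralElem
        (∑ j ∈ s, Polynomial.C (P.coeff j) * Polynomial.X ^ j) := by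
      intro s
      induction s using Finset.induction_on with
      | empty =>
        rw [Finset.sum_empty]
        have h := (eval₂Hom (Polynomial.mapRingHom (algebraMap k F))
          (fun i => Polynomial.C (u i))).isIntegralElem_map (x := 0)
        rw [map_zero] at h
        exact h
      | insert a s ha ih =>
        rw [Finset.sum_insert ha]
        exact RingHom.IsIntegralElem.add _
          (RingHom.IsIntegralElem.mul _ (hC _ (hI a)) (hpow a)) ih
    have h := hsum P.support
    rw [← Polynomial.as_sum_support_C_mul_X_pow P] at h
    exact h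

end Pool.Agent.H85.FOS
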